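import Mathlib
import Pool.Agent.Helper94.KC.GoalsC

/-!
Packet KC-DD (project of helper94, MP_bf413e_co): a short even set is the boundary of a sum of discs.
-/

set_option autoImplicit false

open scoped Classical
open Finset
open Pool.Agent.Helper94.KC

namespace Pool.Agent.Helper34.KC

theorem dd (hEV : StmtEV) (hCY : StmtCY) : StmtDD := by
  intro V _ T hT c hc
  obtain ⟨hadd, hsum, -, hcyc, -, -⟩ := hEV V T hT
  suffices H : ∀ n : ℕ, ∀ z ⊆ ed T, Even2 z → z.card < c → z.card = n →
      ∃ L : List (Finset (Finset V)), bd T (L.foldr symmDiff ∅) = z ∧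
        ∀ D ∈ L, ∃ (x : V) (w : (sk T).Walk x x), w.IsCycle ∧ wed w ⊆ z ∧ Disc T D (wed w) from
    fun z hz he hl => H z.card z hz he hl rfl
  intro n
  induction n using Nat.strong_induction_on with
  | _ n ih =>
    intro z hz he hl hn
    rcases z.eq_empty_or_nonempty with rfl | hne
    · refine ⟨[], ?_, by simp⟩
      simp [bd]
    · obtain ⟨x, w, hw, hwz⟩ := hCY V T hT z hz he hne
      obtain ⟨hwe, hwl, hwT⟩ := hcyc x w hw
      have hle : (wed w).card ≤ z.card := card_le_card hwz
      obtain ⟨D, hD⟩ := hc x w hw (by omega)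
      have h3 := hw.three_le_length
      have hsd : symmDiff z (wed w) = z \ wed w := by
        rw [symmDiff_def, Finset.sup_eq_union]
        have : wed w \ z = ∅ := sdiff_eq_empty_iff_subset.mpr hwz
        rw [this, union_empty]
      have hcard : (z \ wed w).card = z.card - (wed w).card := card_sdiff_of_subset hwz
      obtain ⟨L, hL, hL2⟩ := ih (z \ wed w).card (by omega) (z \ wed w)
        (sdiff_subset.trans hz) (by rw [← hsd]; exact hsum _ _ he hwe) (by omega) rfl
      refine ⟨D :: L, ?_, ?_⟩
      · rw [List.foldr_cons, hadd, hL, hD.bdy, ← hsd, symmDiff_comm z, symmDiff_symmDiff_cancel_left]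
      · intro D' hD'
        rcases List.mem_cons.mp hD' with rfl | hmem
        · exact ⟨x, w, hw, hwz, hD⟩
        · obtain ⟨x', w', h1, h2, h3'⟩ := hL2 D' hmem
          exact ⟨x', w', h1, h2.trans sdiff_subset, h3'⟩

end Pool.Agent.Helper34.KC
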